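import Pool.Agent.H705.RO.Stm2

/-! # UBC: Borel-Cantelli for the length of the set of large values (helper115 for helper705) -/

set_option autoImplicit false

namespace Pool.Agent.H115.RO

open MeasureTheory ProbabilityTheory Filter Topology Finset
open Pool.Agent.H705.RO

lemma summable_exp_neg_rpow {q : ℝ} (hq : 0 < q) :
    Summable (fun k : ℕ => Real.exp (-((k : ℝ) ^ q))) := by
  have h1 : (fun x : ℝ => Real.exp (-1 * x)) =o[atTop] fun x => x ^ (-(2 / q)) :=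
    isLittleO_exp_neg_mul_rpow_atTop one_pos _
  have h2 : Tendsto (fun k : ℕ => (k : ℝ) ^ q) atTop atTop :=
    (tendsto_rpow_atTop hq).comp tendsto_natCast_atTop_atTop
  have h3 := (h1.comp_tendsto h2).isBigO
  have e1 : ((fun x : ℝ => Real.exp (-1 * x)) ∘ fun k : ℕ => (k : ℝ) ^ q) =
      fun k : ℕ => Real.exp (-((k : ℝ) ^ q)) := by
    funext k
    simp only [Function.comp]
    congr 1
    ring
  have e2 : ((fun x : ℝ => x ^ (-(2 / q))) ∘ fun k : ℕ => (k : ℝ) ^ q) =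
      fun k : ℕ => (k : ℝ) ^ (-2 : ℝ) := by
    funext k
    simp only [Function.comp]
    rw [← Real.rpow_mul (Nat.cast_nonneg k)]
    congr 1
    field_simp
  rw [e1, e2] at h3
  exact summable_of_isBigO_nat (Real.summable_nat_rpow.2 (by norm_num)) h3

lemma le_Nk (θ : ℝ) (k : ℕ) : (k : ℝ) ^ θ ≤ (Nk θ k : ℝ) := Nat.le_ceil _

lemma Nk_tendsto {θ : ℝ} (hθ : 0 < θ) : Tendsto (fun k : ℕ => (Nk θ k : ℝ)) atTop atTop :=
  tendsto_atTop_mono (le_Nk θ) ((tendsto_rpow_atTop hθ).comp tendsto_natCast_atTop_atTop)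

theorem T_UBC (hJM : P_JM) (hVL2 : P_VL2) (hHOE : P_HOE) : P_UBC := by
  intro Ω _ P X hM a β g w hA p θ hp hp1 hθ hθ1
  have hprob := hM.prob
  obtain ⟨ha, hA⟩ := hA
  -- the constant
  set p' := (1 + p) / 2 with hp'
  obtain ⟨C₀, hC₀⟩ := hA (1 - p') (by rw [hp']; linarith)
  set C := max C₀ 1 with hC
  have hC1 : 1 ≤ C := le_max_right _ _
  have hC0 : 0 < C := by linarith
  have hv : ∀ N M : ℕ, 1 ≤ N → N ≤ M → ∑ n ∈ Ico N M, a n ^ 2 ≤ C * (N : ℝ) ^ (-p') := by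
    intro N M hN hNM
    have h1 := hC₀ N M hN hNM
    have e : -1 + (1 - p') = -p' := by ring
    rw [e] at h1
    refine h1.trans (mul_le_mul_of_nonneg_right (le_max_left _ _) ?_)
    positivity
  -- the threshold
  have hev : ∀ᶠ k : ℕ in atTop, 1 ≤ Nk θ k ∧ 4 * C ≤ (Nk θ k : ℝ) ^ (p' - p) := by
    have h1 : Tendsto (fun k : ℕ => (Nk θ k : ℝ) ^ (p' - p)) atTop atTop :=
      (tendsto_rpow_atTop (by rw [hp']; linarith)).comp (Nk_tendsto hθ)
    filter_upwards [(Nk_tendsto hθ).eventually_ge_atTop 1, h1.eventually_ge_atTop (4 * C)]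
      with k h2 h3
    exact ⟨by exact_mod_cast h2, h3⟩
  obtain ⟨K₀, hK₀⟩ := eventually_atTop.1 hev
  -- the events
  let E : ℕ → Set (Ω × ℝ) := fun k => {z : Ω × ℝ |
    1 ≤ |∑ n ∈ Ico (Nk θ k) (Nk θ k + k ^ 4), wave a β g w (fun n => X n z.1) n z.2|}
  have hE : ∀ k, MeasurableSet (E k) := fun k =>
    (hJM Ω P X hM a β g w (fun _ => 0) 0 0 (Nk θ k) (Nk θ k + k ^ 4)).2
  let B : ℕ → Set Ω := fun k => {ω | K₀ ≤ k ∧
    ENNReal.ofReal (2 ^ k * Real.exp (-((Nk θ k : ℝ) ^ p))) ≤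
      (volume : Measure ℝ) {t : ℝ | 0 ≤ t ∧ t ≤ 2 ^ k ∧ (ω, t) ∈ E k}}
  have hB : ∀ k, P (B k) ≤ ENNReal.ofReal (2 * Real.exp (-((k : ℝ) ^ (θ * p)))) := by
    intro k
    by_cases hk : K₀ ≤ k
    · obtain ⟨hN1, hN4⟩ := hK₀ k hk
      have hNpos : (0 : ℝ) < (Nk θ k : ℝ) := by exact_mod_cast hN1
      have hv0 : 0 < C * (Nk θ k : ℝ) ^ (-p') := by positivity
      have hT : (0 : ℝ) < 2 ^ k := by positivity
      have hlam : 0 < 2 ^ k * Real.exp (-((Nk θ k : ℝ) ^ p)) := by positivity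
      have h1 := hVL2 Ω P (E k) (2 ^ k)
        (2 * Real.exp (-((1 : ℝ) ^ 2 / (2 * (C * (Nk θ k : ℝ) ^ (-p'))))))
        (2 ^ k * Real.exp (-((Nk θ k : ℝ) ^ p))) (hE k) hT (by positivity) hlam
        (fun t _ _ => hHOE Ω P X hM a β g w ha t (Nk θ k) (Nk θ k + k ^ 4) 1 _ one_pos hv0
          (hv _ _ hN1 (Nat.le_add_right _ _)))
      have hsub : B k ⊆ {ω | ENNReal.ofReal (2 ^ k * Real.exp (-((Nk θ k : ℝ) ^ p))) ≤
          (volume : Measure ℝ) {t : ℝ | 0 ≤ t ∧ t ≤ 2 ^ k ∧ (ω, t) ∈ E k}} := fun ω hω => hω.2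
      refine ((measure_mono hsub).trans h1).trans (ENNReal.ofReal_le_ofReal ?_)
      have e1 : 2 ^ k * (2 * Real.exp (-((1 : ℝ) ^ 2 / (2 * (C * (Nk θ k : ℝ) ^ (-p')))))) /
          (2 ^ k * Real.exp (-((Nk θ k : ℝ) ^ p))) =
          2 * Real.exp ((Nk θ k : ℝ) ^ p - (Nk θ k : ℝ) ^ p' / (2 * C)) := by
        rw [Real.exp_sub, Real.exp_neg, Real.exp_neg, Real.rpow_neg hNpos.le]
        have e2 : (1 : ℝ) ^ 2 / (2 * (C * ((Nk θ k : ℝ) ^ p')⁻¹)) =
            (Nk θ k : ℝ) ^ p' / (2 * C) := by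
          field_simp
        rw [e2]
        field_simp
      rw [e1]
      have h2 : (Nk θ k : ℝ) ^ p * (4 * C) ≤ (Nk θ k : ℝ) ^ p' := by
        have e3 : (Nk θ k : ℝ) ^ p' = (Nk θ k : ℝ) ^ p * (Nk θ k : ℝ) ^ (p' - p) := by
          rw [← Real.rpow_add hNpos]
          congr 1
          ring
        rw [e3]
        exact mul_le_mul_of_nonneg_left hN4 (by positivity)
      have h3 : 2 * (Nk θ k : ℝ) ^ p ≤ (Nk θ k : ℝ) ^ p' / (2 * C) := by
        rw [le_div_iff₀ (by positivity)]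
        linarith
      have h4 : (k : ℝ) ^ (θ * p) ≤ (Nk θ k : ℝ) ^ p := by
        rw [Real.rpow_mul (Nat.cast_nonneg k)]
        exact Real.rpow_le_rpow (by positivity) (le_Nk θ k) hp.le
      have h5 : Real.exp ((Nk θ k : ℝ) ^ p - (Nk θ k : ℝ) ^ p' / (2 * C)) ≤
          Real.exp (-((k : ℝ) ^ (θ * p))) := by
        apply Real.exp_le_exp.2
        linarith
      linarith
    · have hempty : B k = ∅ := by
        apply Set.eq_empty_of_forall_notMem
        rintro ω ⟨h, _⟩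
        exact hk h
      rw [hempty, measure_empty]
      exact zero_le
  have hs : Summable (fun k : ℕ => 2 * Real.exp (-((k : ℝ) ^ (θ * p)))) :=
    (summable_exp_neg_rpow (mul_pos hθ hp)).mul_left 2
  have hsum : ∑' k, P (B k) ≠ ⊤ :=
    ne_top_of_le_ne_top hs.tsum_ofReal_ne_top (ENNReal.tsum_le_tsum hB)
  filter_upwards [ae_finite_setOfPred_mem hsum] with ω hω
  obtain ⟨K, hK⟩ := hω.bddAbove
  refine eventually_atTop.2 ⟨max K₀ (K + 1), fun k hk => ?_⟩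
  by_contra hcon
  rw [not_le] at hcon
  have hmem : k ∈ {x | ω ∈ B x} := ⟨(le_max_left _ _).trans hk, hcon.le⟩
  have hle : k ≤ K := hK hmem
  have := (le_max_right K₀ (K + 1)).trans hk
  omega

end Pool.Agent.H115.RO
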